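import Mathlib

set_option autoImplicit false

/-!
# The type B Eulerian transformation preserves log-convexity

`SP n` is the set of signed permutations of `[n]` in window notation: a permutation `σ` of the
absolute values and a choice of signs; `word x` is the word `w(0) = 0, w(1), ..., w(n)`.
-/

namespace Pool.Agent.Results.MP_209e83_co.TypeBPreservesLogConvexity

open Finset

/-- A signed permutation `w` of `[n]`, given by its window `w(1), ..., w(n)`: the permutation
`i ↦ |w(i)|` and the set of places with a minus sign. -/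
abbrev SP (n : ℕ) : Type := Equiv.Perm (Fin n) × (Fin n → Bool)

/-- the sign -/
def sg (b : Bool) : ℤ := if b then -1 else 1

/-- The values of the signed permutation: `w(0) = 0` and `w(i) = ± |w(i)|` for `1 ≤ i ≤ n`
(the value `0` beyond `n` is never used). -/
def word {n : ℕ} (x : SP n) (i : ℕ) : ℤ :=
  if h : 1 ≤ i ∧ i ≤ n then
    sg (x.2 ⟨i - 1, by omega⟩) * (((x.1 ⟨i - 1, by omega⟩ : Fin n) : ℕ) + 1 : ℤ)
  else 0

/-- The number of type B descents: the number of `i` in `{0, ..., n - 1}` with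
`w(i) > w(i + 1)`. -/
def des {n : ℕ} (x : SP n) : ℕ := ((range n).filter (fun i => word x i > word x (i + 1))).card

/-- The type B Eulerian number `B_{n,k}`: the number of signed permutations of `[n]` with exactly
`k` type B descents. -/
def B (n k : ℕ) : ℕ := ((univ : Finset (SP n)).filter (fun x => des x = k)).card

/-- number of descents of a function on `0, ..., n` -/
def dn (f : ℕ → ℤ) (n : ℕ) : ℕ := ∑ i ∈ range n, if f (i + 1) < f i then 1 else 0

/-- insertion of the value `M` at the place `p` -/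
def ins (f : ℕ → ℤ) (p : ℕ) (M : ℤ) (i : ℕ) : ℤ :=
  if i < p then f i else if i = p then M else f (i - 1)

theorem dn_succ (f : ℕ → ℤ) (n : ℕ) :
    dn f (n + 1) = dn f n + if f (n + 1) < f n then 1 else 0 := Finset.sum_range_succ _ _

theorem dn_le (f : ℕ → ℤ) (n : ℕ) : dn f n ≤ n := by
  induction n with
  | zero => simp [dn]
  | succ n ih => rw [dn_succ]; split_ifs <;> omega

theorem ins_lt (f : ℕ → ℤ) (p : ℕ) (M : ℤ) (i : ℕ) (h : i < p) : ins f p M i = f i := if_pos h

theorem ins_eq (f : ℕ → ℤ) (p : ℕ) (M : ℤ) : ins f p M p = M := by simp [ins]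

theorem ins_gt (f : ℕ → ℤ) (p : ℕ) (M : ℤ) (i : ℕ) (h : p ≤ i) : ins f p M (i + 1) = f i := by
  unfold ins
  rw [if_neg (by omega), if_neg (by omega)]
  simp

theorem ins_last (f : ℕ → ℤ) (M : ℤ) (n : ℕ) :
    dn (ins f (n + 1) M) (n + 1) = dn f n + if M < f n then 1 else 0 := by
  rw [dn_succ, ins_eq, ins_lt _ _ _ _ (Nat.lt_succ_self n)]
  congr 1
  unfold dn
  apply Finset.sum_congr rfl
  intro i hi
  rw [Finset.mem_range] at hi
  rw [ins_lt _ _ _ _ (by omega), ins_lt _ _ _ _ (by omega)]

theorem ins_mid (f : ℕ → ℤ) (M : ℤ) (q n : ℕ) (hq : q + 1 ≤ n) :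
    dn (ins f (q + 1) M) (n + 1) + (if f (q + 1) < f q then 1 else 0) =
      dn f n + (if M < f q then 1 else 0) + (if f (q + 1) < M then 1 else 0) := by
  induction n, hq using Nat.le_induction with
  | base =>
    rw [dn_succ, ins_last, ins_eq, ins_gt _ _ _ _ le_rfl, dn_succ]
    omega
  | succ n hn ih =>
    rw [dn_succ, ins_gt _ _ _ (n + 1) (by omega), ins_gt _ _ _ n hn, dn_succ f n]
    omega

theorem des_dn {n : ℕ} (x : SP n) : des x = dn (word x) n := by
  unfold des dn
  rw [Finset.card_filter]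

theorem des_le {n : ℕ} (x : SP n) : des x ≤ n := by
  rw [des_dn]; exact dn_le _ _

/-- insertion of the largest value at the place `p` -/
def Ph {n : ℕ} (x : Fin (n + 1) × Equiv.Perm (Fin n)) : Equiv.Perm (Fin (n + 1)) :=
  (finSuccEquiv' x.1).trans ((Equiv.optionCongr x.2).trans (finSuccEquiv' (Fin.last n)).symm)

theorem Ph_self {n : ℕ} (p : Fin (n + 1)) (τ : Equiv.Perm (Fin n)) :
    Ph (p, τ) p = Fin.last n := by
  simp [Ph]

theorem Ph_succAbove {n : ℕ} (p : Fin (n + 1)) (τ : Equiv.Perm (Fin n)) (i : Fin n) :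
    Ph (p, τ) (p.succAbove i) = (τ i).castSucc := by
  simp [Ph]

theorem Ph_bij {n : ℕ} : Function.Bijective (Ph (n := n)) := by
  rw [Fintype.bijective_iff_injective_and_card]
  constructor
  · rintro ⟨p, τ⟩ ⟨p', τ'⟩ h
    have h1 : p = p' := by
      apply (Ph (p, τ)).injective
      rw [Ph_self, h, Ph_self]
    subst h1
    congr 1
    ext i
    have h2 := congrArg (fun e : Equiv.Perm (Fin (n + 1)) => (e (p.succAbove i)).val) h
    simp only [Ph_succAbove, Fin.val_castSucc] at h2
    exact h2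
  · rw [Fintype.card_prod, Fintype.card_perm, Fintype.card_perm, Fintype.card_fin,
      Fintype.card_fin, Nat.factorial_succ n]

theorem word_succ {n : ℕ} (x : SP n) (j : Fin n) :
    word x (j.val + 1) = sg (x.2 j) * ((x.1 j).val + 1 : ℤ) := by
  unfold word
  rw [dif_pos ⟨by omega, by have := j.2; omega⟩]
  simp

theorem word_zero {n : ℕ} (x : SP n) : word x 0 = 0 := by
  unfold word
  rw [dif_neg (by omega)]

theorem word_ins {n : ℕ} (p : Fin (n + 1)) (τ : Equiv.Perm (Fin n)) (b : Bool)
    (s : Fin n → Bool) (i : ℕ) (hi : i ≤ n + 1) :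
    word ((Ph (p, τ), Fin.insertNth p b s) : SP (n + 1)) i =
      ins (word ((τ, s) : SP n)) (p.val + 1) (sg b * ((n : ℤ) + 1)) i := by
  cases i with
  | zero => rw [word_zero, ins_lt _ _ _ _ (by omega), word_zero]
  | succ j =>
    have hj : j < n + 1 := by omega
    have e := word_succ ((Ph (p, τ), Fin.insertNth p b s) : SP (n + 1)) ⟨j, hj⟩
    simp only at e
    rw [e]
    rcases Fin.eq_self_or_eq_succAbove p ⟨j, hj⟩ with h | ⟨k, h⟩
    · have hjp : p.val = j := by rw [← h]
      rw [h, Ph_self, Fin.insertNth_apply_same, hjp, ins_eq]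
      simp
    · rw [h, Ph_succAbove, Fin.insertNth_apply_succAbove, Fin.val_castSucc]
      have hw := word_succ ((τ, s) : SP n) k
      simp only at hw
      rw [← hw]
      by_cases hk : k.castSucc < p
      · rw [Fin.succAbove_of_castSucc_lt _ _ hk] at h
        have hjk : j = k.val := by
          have := congrArg Fin.val h
          simpa using this
        have hk' : k.val < p.val := hk
        rw [hjk, ins_lt _ _ _ _ (by omega)]
      · rw [Fin.succAbove_of_le_castSucc _ _ (not_lt.mp hk)] at h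
        have hjk : j = k.val + 1 := by
          have := congrArg Fin.val h
          simpa using this
        have hk' : p.val ≤ k.val := not_lt.mp hk
        rw [hjk, ins_gt _ _ _ _ (by omega)]

theorem word_abs {n : ℕ} (x : SP n) (i : ℕ) : -((n : ℤ) + 1) < word x i ∧ word x i < (n : ℤ) + 1 := by
  unfold word
  split_ifs with h
  · have h1 := (x.1 ⟨i - 1, by omega⟩).2
    have h2 : (((x.1 ⟨i - 1, by omega⟩ : Fin n) : ℕ) : ℤ) < n := by exact_mod_cast h1
    have h3 : (0 : ℤ) ≤ (((x.1 ⟨i - 1, by omega⟩ : Fin n) : ℕ) : ℤ) := by positivity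
    unfold sg
    split_ifs <;> constructor <;> linarith
  · constructor <;> omega

/-- the sum over the insertions of `±(n + 1)` into one signed permutation -/
theorem sum_ins {n : ℕ} (x : SP n) (G : ℕ → ℝ) :
    ∑ p ∈ range (n + 1), (G (dn (ins (word x) (p + 1) ((n : ℤ) + 1)) (n + 1)) +
      G (dn (ins (word x) (p + 1) (-((n : ℤ) + 1))) (n + 1))) =
      (2 * (des x : ℝ) + 1) * G (des x) + (2 * ((n : ℝ) - des x) + 1) * G (des x + 1) := by
  rw [Finset.sum_range_succ, ins_last, ins_last]
  have a1 := word_abs x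
  rw [if_neg (by have := (a1 n).2; omega), if_pos (a1 n).1, ← des_dn, add_zero]
  have h1 : ∀ p ∈ range n, (G (dn (ins (word x) (p + 1) ((n : ℤ) + 1)) (n + 1)) +
      G (dn (ins (word x) (p + 1) (-((n : ℤ) + 1))) (n + 1))) =
      (if word x (p + 1) < word x p then (1 : ℝ) else 0) * (2 * G (des x) - 2 * G (des x + 1)) +
        2 * G (des x + 1) := by
    intro p hp
    rw [mem_range] at hp
    have m1 := ins_mid (word x) ((n : ℤ) + 1) p n (by omega)
    have m2 := ins_mid (word x) (-((n : ℤ) + 1)) p n (by omega)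
    rw [if_neg (show ¬ ((n : ℤ) + 1 < word x p) by have := (a1 p).2; omega),
      if_pos (a1 (p + 1)).2, ← des_dn] at m1
    rw [if_pos (a1 p).1,
      if_neg (show ¬ (word x (p + 1) < -((n : ℤ) + 1)) by have := (a1 (p + 1)).1; omega),
      ← des_dn] at m2
    by_cases hd : word x (p + 1) < word x p
    · rw [if_pos hd] at m1 m2 ⊢
      have e1 : dn (ins (word x) (p + 1) ((n : ℤ) + 1)) (n + 1) = des x := by omega
      have e2 : dn (ins (word x) (p + 1) (-((n : ℤ) + 1))) (n + 1) = des x := by omega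
      rw [e1, e2]; ring
    · rw [if_neg hd] at m1 m2 ⊢
      have e1 : dn (ins (word x) (p + 1) ((n : ℤ) + 1)) (n + 1) = des x + 1 := by omega
      have e2 : dn (ins (word x) (p + 1) (-((n : ℤ) + 1))) (n + 1) = des x + 1 := by omega
      rw [e1, e2]; ring
  rw [Finset.sum_congr rfl h1, Finset.sum_add_distrib, ← Finset.sum_mul]
  have h5 : ∑ q ∈ range n, (if word x (q + 1) < word x q then (1 : ℝ) else 0) = des x := by
    rw [des_dn]
    unfold dn
    push_cast
    rfl
  rw [h5]
  simp only [Finset.sum_const, Finset.card_range, nsmul_eq_mul]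
  ring

/-- the recurrence, for sums -/
theorem sum_succ (n : ℕ) (G : ℕ → ℝ) :
    ∑ y : SP (n + 1), G (des y) =
      ∑ x : SP n, ((2 * (des x : ℝ) + 1) * G (des x) +
        (2 * ((n : ℝ) - des x) + 1) * G (des x + 1)) := by
  have h0 : ∀ (p : Fin (n + 1)) (τ : Equiv.Perm (Fin n)) (b : Bool) (s : Fin n → Bool),
      des ((Ph (p, τ), Fin.insertNth p b s) : SP (n + 1)) =
        dn (ins (word ((τ, s) : SP n)) (p.val + 1) (sg b * ((n : ℤ) + 1))) (n + 1) := by
    intro p τ b s
    rw [des_dn]
    unfold dn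
    apply Finset.sum_congr rfl
    intro i hi
    rw [Finset.mem_range] at hi
    rw [word_ins p τ b s i (by omega), word_ins p τ b s (i + 1) (by omega)]
  rw [Fintype.sum_prod_type]
  rw [← Function.Bijective.sum_comp (Ph_bij (n := n))
    (fun σ => ∑ t : Fin (n + 1) → Bool, G (des ((σ, t) : SP (n + 1))))]
  rw [Fintype.sum_prod_type_right, Fintype.sum_prod_type]
  apply Finset.sum_congr rfl
  intro τ _
  have h1 : ∀ p : Fin (n + 1), ∑ t : Fin (n + 1) → Bool, G (des ((Ph (p, τ), t) : SP (n + 1))) =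
      ∑ s : Fin n → Bool, ∑ b : Bool,
        G (dn (ins (word ((τ, s) : SP n)) (p.val + 1) (sg b * ((n : ℤ) + 1))) (n + 1)) := by
    intro p
    rw [← (Fin.insertNthEquiv (fun _ => Bool) p).sum_comp, Fintype.sum_prod_type_right]
    apply Finset.sum_congr rfl
    intro s _
    apply Finset.sum_congr rfl
    intro b _
    rw [← h0]
    rfl
  rw [Finset.sum_congr rfl (fun p _ => h1 p), Finset.sum_comm]
  apply Finset.sum_congr rfl
  intro s _
  rw [← sum_ins ((τ, s) : SP n) G, Finset.sum_range]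
  apply Finset.sum_congr rfl
  intro p _
  rw [Fintype.sum_bool]
  simp only [sg, if_true, Bool.false_eq_true, if_false, one_mul, neg_mul]
  rw [add_comm]

/-- sums against the type B Eulerian numbers -/
theorem sum_B (n : ℕ) (G : ℕ → ℝ) :
    ∑ k ∈ range (n + 1), (B n k : ℝ) * G k = ∑ x : SP n, G (des x) := by
  rw [← Finset.sum_fiberwise_of_maps_to (s := (univ : Finset (SP n))) (t := range (n + 1))
    (g := des) (fun x _ => mem_range.mpr (Nat.lt_succ_of_le (des_le x))) (fun x => G (des x))]
  apply Finset.sum_congr rfl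
  intro k _
  rw [Finset.sum_congr rfl (g := fun _ => G k)]
  · rw [Finset.sum_const, nsmul_eq_mul]
    rfl
  · intro x hx
    rw [(Finset.mem_filter.mp hx).2]

/-- **The type B Eulerian transformation preserves log-convexity.** -/
theorem result (x : ℕ → ℝ) (hx : ∀ k, 0 ≤ x k) (hlc : ∀ k, x (k + 1) ^ 2 ≤ x k * x (k + 2))
    (n : ℕ) :
    (∑ k ∈ range (n + 1 + 1), (B (n + 1) k : ℝ) * x k) ^ 2 ≤
      (∑ k ∈ range (n + 1), (B n k : ℝ) * x k) *
        (∑ k ∈ range (n + 2 + 1), (B (n + 2) k : ℝ) * x k) := by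
  rw [sum_B, sum_B, sum_B, show n + 2 = n + 1 + 1 from rfl, sum_succ (n + 1) x, sum_succ n x,
    sum_succ n (fun d => (2 * (d : ℝ) + 1) * x d + (2 * (((n + 1 : ℕ) : ℝ) - d) + 1) * x (d + 1))]
  apply Finset.sum_sq_le_sum_mul_sum_of_sq_le_mul
  · intro y _
    exact hx _
  · intro y _
    have hd : (des y : ℝ) ≤ n := by exact_mod_cast des_le y
    have h0 := hx (des y)
    have h1 := hx (des y + 1)
    have h2 := hx (des y + 1 + 1)
    have hk0 : (0 : ℝ) ≤ des y := Nat.cast_nonneg _
    have hq : (0 : ℝ) ≤ (n : ℝ) - des y := by linarith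
    push_cast
    have q1 : (0 : ℝ) ≤ 2 * ((n : ℝ) + 1 - des y) + 1 := by linarith
    have q2 : (0 : ℝ) ≤ 2 * ((n : ℝ) - des y) + 1 := by linarith
    have q3 : (0 : ℝ) ≤ 2 * ((n : ℝ) + 1 - (des y + 1)) + 1 := by linarith
    positivity
  · intro y _
    have hd : (des y : ℝ) ≤ n := by exact_mod_cast des_le y
    have h0 := hx (des y)
    have h1 := hx (des y + 1)
    have hc := hlc (des y)
    have hn : (0 : ℝ) ≤ n := Nat.cast_nonneg _
    push_cast
    have p1 : 0 ≤ 4 * ((n : ℝ) + 1) * (x (des y) * x (des y + 1)) := by positivity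
    have p2 : 0 ≤ (2 * ((n : ℝ) - des y) + 1) ^ 2 *
        (x (des y) * x (des y + 2) - x (des y + 1) ^ 2) :=
      mul_nonneg (sq_nonneg _) (by linarith)
    have e : des y + 1 + 1 = des y + 2 := rfl
    rw [e]
    nlinarith [p1, p2]

end Pool.Agent.Results.MP_209e83_co.TypeBPreservesLogConvexity
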